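import Pool.Agent.Helper77.SO.St

/-!
# MP_7a9ddc_co, project SO, module QF: assembly of part 2a
-/

set_option autoImplicit false

namespace Pool.Agent.Helper72.SO.QF

open Equiv Equiv.Perm Pool.Agent.Helper35.PM Pool.Agent.Helper77.HY Pool.Agent.Helper77.OF4
  Pool.Agent.Helper77.SO

theorem main (hFr : StFr) (hVo : StVo) (hMg : StMg) (hAs : StAs) (hStm : StStm) : StQf := by
  intro V D _ _ M L W hL hC hHC hodd hper hloop hW hac hAF
  have key : ∀ p : D → ZMod 2, FC M p →
      (∀ e, p (M.ι e) ≠ p e → M.t e ∉ W ∧ M.t (M.ι e) ∉ W) →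
      ∀ a b, M.t a ∈ W → M.t b ∈ W → p a = p b := by
    intro p hp hp2 a b ha hb
    obtain ⟨a', ha', hoa⟩ := hVo V D M hC hodd hper (M.t a)
    obtain ⟨b', hb', hob⟩ := hVo V D M hC hodd hper (M.t b)
    have h1 : ∀ e, M.t e ∈ W → p (M.r e) = p e := by
      intro e he
      have h2 : M.φ (M.ι e) = M.r e := by rw [PMap.φ_apply, M.inv]
      rw [← h2, hp]
      by_contra hne
      exact (hp2 e hne).1 he
    have h3 : ∀ (n : ℕ) (c : D), M.t c ∈ W → p ((M.r ^ n) c) = p c := by
      intro n c hc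
      induction n with
      | zero => simp
      | succ n ih =>
        rw [pow_succ', Perm.mul_apply, h1 _ (by rw [PMap.t_pow]; exact hc), ih]
    have h4 : ∀ c c', M.t c ∈ W → M.t c = M.t c' → p c = p c' := by
      intro c c' hc hcc
      obtain ⟨n, hn⟩ := (M.trans c c' hcc).exists_nat_pow_eq
      rw [← hn, h3 n c hc]
    rw [h4 a a' ha ha'.symm, h4 b b' hb hb'.symm]
    exact hFr V D M L W hL hC hHC hloop hac p hp hp2 a' b' hoa hob
  obtain ⟨r', hpl, hr', hsc⟩ := hMg V D M W hW key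
  have hAFs := hAs V D M W r' hW hloop hpl hr' hsc hAF
  have hτ : ∀ d, M.t d ∈ W → M.t (r' d) ∈ W := by
    intro d hd
    by_contra hne
    have h5 : M.t (M.r.symm (r' d)) = M.t (r' d) := by
      have h6 := M.t_r (M.r.symm (r' d))
      rw [Equiv.apply_symm_apply] at h6
      exact h6.symm
    have h7 : r' (M.r.symm (r' d)) = r' d := by
      rw [hr' _ (by rw [h5]; exact hne), Equiv.apply_symm_apply]
    have h8 : M.r.symm (r' d) = d := r'.injective h7
    rw [h8] at h5
    rw [← h5] at hne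
    exact hne hd
  have hST := hStm D V r' M.ι M.t W hτ hac hAFs
  exact ⟨r', V, M.t, W, hpl, hr', hsc, fun _ _ h => h, fun _ => Iff.rfl, hloop, hac, hST⟩

end Pool.Agent.Helper72.SO.QF
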